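import Pool.Agent.L0h79.AJ.Stm
import Pool.Agent.TH796.AL.Dir

/-!
# Project AJ, module BIL (helper44): bilinear expressions of real numbers
-/

set_option autoImplicit false
set_option linter.all false

namespace Pool.Agent.L0h44.AJ

open Filter Topology Pool.Agent.TH932.Abs Pool.Agent.TH932.Germs Pool.Agent.TH932.Chi
open Pool.Agent.TH796.AL Pool.Agent.TH796.AL.Lin Pool.Agent.TH796.AL.Dir Pool.Agent.L0h79.FR
open Pool.Agent.L0h79.AJ

lemma gr_sum {ι : Type} (s : Finset ι) (f : ι → ℕ → ℝ) :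
    ∑ i ∈ s, gr (f i) = gr (fun n => ∑ i ∈ s, f i n) := by
  classical
  induction s using Finset.induction_on with
  | empty => simpa using gr_zero.symm
  | insert a s ha ih =>
    rw [Finset.sum_insert ha, ih, gr_add]
    congr 1
    funext n
    rw [Finset.sum_insert ha]

/-- a common denominator -/
lemma common_den {k : ℕ} (q : Fin k → ℚ) (i : Fin k) :
    ((((∏ j ∈ Finset.univ.erase i, ((q j).den : ℤ)) * (q i).num : ℤ)) : ℝ) =
      (∏ j, ((q j).den : ℝ)) * (q i : ℝ) := by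
  rw [← Finset.mul_prod_erase Finset.univ (fun j => ((q j).den : ℝ)) (Finset.mem_univ i)]
  have h1 : ((q i).den : ℝ) * (q i : ℝ) = (q i).num := by
    have h2 : ((q i).den : ℚ) * q i = (q i).num := Rat.den_mul_eq_num (q i)
    exact_mod_cast congrArg (fun z : ℚ => (z : ℝ)) h2
  push_cast
  calc (∏ j ∈ Finset.univ.erase i, ((q j).den : ℝ)) * ((q i).num : ℝ)
      = (∏ j ∈ Finset.univ.erase i, ((q j).den : ℝ)) * (((q i).den : ℝ) * (q i : ℝ)) := by rw [h1]
    _ = _ := by ring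

lemma small_gr {L : ℕ → ℝ} (hL : Tendsto L atTop atTop) {s : ℕ → ℚ} {x E : ℝ}
    (h : ∀ᶠ n in (UU : Filter ℕ), |x - s n| ≤ Real.exp (-(E * L n))) :
    gr (fun n => (s n : ℝ) - x) ∈ SR L E := by
  rw [mem_SR]
  intro ε hε
  filter_upwards [h, L_nonneg hL] with n h1 h2
  rw [abs_sub_comm]
  refine h1.trans (Real.exp_le_exp.2 ?_)
  nlinarith

lemma bil_consts (m k κ' C r N1 N2 : ℝ) (hm : 0 ≤ m) (hk : 0 ≤ k) (hκ : 0 ≤ κ') (hC : 0 ≤ C)
    (hr : 0 ≤ r) (h1 : 0 ≤ N1) (h2 : 0 ≤ N2) (h3 : N1 ≤ k * r) (h4 : N2 ≤ k * r) :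
    κ' * (C + 1) * (N1 + N2 + 1) ^ 5 + 1 +
      k * (1 + m * (κ' * (C + 1) * (N1 + N2 + 1) ^ 5 + 1)) ≤
    (κ' * (2 * k + 1) ^ 5 + 1 + k * (1 + m * (κ' * (2 * k + 1) ^ 5 + 1))) *
      ((C + 1) * (r + 1) ^ 5) ∧ 1 ≤ (C + 1) * (r + 1) ^ 5 := by
  have hr5 : (1 : ℝ) ≤ (r + 1) ^ 5 := one_le_pow₀ (by linarith)
  set X : ℝ := (C + 1) * (r + 1) ^ 5 with hX
  have hX1 : 1 ≤ X := by
    rw [hX]
    calc (1 : ℝ) = 1 * 1 := by ring
      _ ≤ (C + 1) * (r + 1) ^ 5 := mul_le_mul (by linarith) hr5 (by norm_num) (by linarith)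
  refine ⟨?_, hX1⟩
  set c₁ : ℝ := κ' * (C + 1) * (N1 + N2 + 1) ^ 5 with hc₁
  set κ₁ : ℝ := κ' * (2 * k + 1) ^ 5 with hκ₁
  have hκ₁0 : 0 ≤ κ₁ := by positivity
  have hc₁0 : 0 ≤ c₁ := by positivity
  have hc₁X : c₁ ≤ κ₁ * X := by
    have h5 : N1 + N2 + 1 ≤ (2 * k + 1) * (r + 1) := by nlinarith
    calc c₁ ≤ κ' * (C + 1) * ((2 * k + 1) * (r + 1)) ^ 5 := by rw [hc₁]; gcongr
      _ = κ₁ * X := by rw [hκ₁, hX, mul_pow]; ring
  have h6 : (1 : ℝ) + m * (c₁ + 1) ≤ (1 + m * (κ₁ + 1)) * X := by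
    have h7 : m * (c₁ + 1) ≤ m * ((κ₁ + 1) * X) := by
      apply mul_le_mul_of_nonneg_left _ hm
      linarith
    linarith
  have h8 : k * (1 + m * (c₁ + 1)) ≤ k * ((1 + m * (κ₁ + 1)) * X) :=
    mul_le_mul_of_nonneg_left h6 hk
  linarith

theorem bil (h : S_GBIL) : S_BIL := by
  classical
  intro m B V W hVW k
  obtain ⟨κ', hκ', hG⟩ := h m B V W hVW k
  set κ₁ : ℝ := κ' * (2 * k + 1) ^ 5 with hκ₁
  have hκ₁0 : 0 ≤ κ₁ := by positivity
  refine ⟨κ₁ + 1 + k * (1 + m * (κ₁ + 1)), by positivity, ?_⟩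
  intro C hC r L hL x y E hx hy hxy hy0 hE
  set X : ℝ := (C + 1) * ((r : ℝ) + 1) ^ 5 with hX
  have hassoc : (κ₁ + 1 + k * (1 + m * (κ₁ + 1))) * (C + 1) * ((r : ℝ) + 1) ^ 5 =
      (κ₁ + 1 + k * (1 + m * (κ₁ + 1))) * X := by rw [hX]; ring
  rw [hassoc] at hE ⊢
  obtain ⟨i₀, hi₀⟩ := hy0
  choose Zx fZx zx hZxr hzx1 hzx2 P s hs0 hs1 hs2 using hx
  choose Zy fZy zy hZyr hzy1 hzy2 Q t ht0 ht1 ht2 using hy
  have hcx : (Fintype.card (Σ l, Zx l) : ℝ) ≤ k * r := by
    have : Fintype.card (Σ l, Zx l) ≤ k * r := by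
      rw [Fintype.card_sigma]
      calc ∑ l, Fintype.card (Zx l) ≤ ∑ _l : Fin k, r := Finset.sum_le_sum fun l _ => hZxr l
        _ = k * r := by simp
    exact_mod_cast this
  have hcy : (Fintype.card (Σ l, Zy l) : ℝ) ≤ k * r := by
    have : Fintype.card (Σ l, Zy l) ≤ k * r := by
      rw [Fintype.card_sigma]
      calc ∑ l, Fintype.card (Zy l) ≤ ∑ _l : Fin k, r := Finset.sum_le_sum fun l _ => hZyr l
        _ = k * r := by simp
    exact_mod_cast this
  set c₁ : ℝ := κ' * (C + 1) * ((Fintype.card (Σ l, Zx l) : ℝ) + Fintype.card (Σ l, Zy l) + 1) ^ 5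
    with hc₁
  have hc₁0 : 0 ≤ c₁ := by positivity
  have hk0 : (0 : ℝ) ≤ k := Nat.cast_nonneg k
  have hm0 : (0 : ℝ) ≤ m := Nat.cast_nonneg m
  set H : ℝ := 1 + m * (|(-c₁)| + 1) with hH
  have hHe : H = 1 + m * (c₁ + 1) := by rw [hH, abs_neg, abs_of_nonneg hc₁0]
  have hH0 : 0 ≤ H := by rw [hHe]; positivity
  obtain ⟨hconst, hX1⟩ : c₁ + 1 + k * H ≤ (κ₁ + 1 + k * (1 + m * (κ₁ + 1))) * X ∧ 1 ≤ X := by
    rw [hHe]
    exact bil_consts (m : ℝ) (k : ℝ) κ' C (r : ℝ) _ _ hm0 hk0 hκ' hC (Nat.cast_nonneg r)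
      (Nat.cast_nonneg _) (Nat.cast_nonneg _) hcx hcy
  have hkH0 : 0 ≤ (k : ℝ) * H := mul_nonneg hk0 hH0
  have hE1 : 1 ≤ E := by linarith
  have hEc : c₁ ≤ E := by linarith
  -- approximations
  have hsR : ∀ l, gr (fun n => (s l n : ℝ) - x l) ∈ SR L E := fun l => small_gr hL (hs2 l)
  have htR : ∀ l, gr (fun n => (t l n : ℝ) - y l) ∈ SR L E := fun l => small_gr hL (ht2 l)
  have hse : ∀ l, rho (gm (s l)) = gr (fun n => (s l n : ℝ) - x l) + algebraMap ℝ HR (x l) := by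
    intro l
    rw [rho_gm, cst_eq, gr_add]
    congr 1
    funext n
    ring
  have hte : ∀ l, rho (gm (t l)) = gr (fun n => (t l n : ℝ) - y l) + algebraMap ℝ HR (y l) := by
    intro l
    rw [rho_gm, cst_eq, gr_add]
    congr 1
    funext n
    ring
  have ht0R : ∀ l, rho (gm (t l)) ∈ SR L 0 := by
    intro l
    rw [hte l]
    exact SR_add hL (SR_anti hL (by linarith) (htR l)) (SR_cst hL (y l))
  set P' : Fin k → (Σ l, Zx l) → Rg m hL := fun i p => if p.1 = i then P p.1 p.2 else 0 with hP'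
  set Q' : Fin k → (Σ l, Zy l) → Rg m hL := fun i p => if p.1 = i then Q p.1 p.2 else 0 with hQ'
  have hPs : ∀ i, ∑ p, ev B hL (P' i p) * zx p.1 p.2 = gm (s i) := by
    intro i
    rw [Fintype.sum_sigma, Finset.sum_eq_single i]
    · rw [hs1 i]
      refine Finset.sum_congr rfl fun j _ => ?_
      simp [hP']
    · intro i' _ hi'
      refine Finset.sum_eq_zero fun j _ => ?_
      simp [hP', hi']
    · intro hn
      exact absurd (Finset.mem_univ _) hn
  have hQs : ∀ i, ∑ p, ev B hL (Q' i p) * zy p.1 p.2 = gm (t i) := by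
    intro i
    rw [Fintype.sum_sigma, Finset.sum_eq_single i]
    · rw [ht1 i]
      refine Finset.sum_congr rfl fun j _ => ?_
      simp [hQ']
    · intro i' _ hi'
      refine Finset.sum_eq_zero fun j _ => ?_
      simp [hQ', hi']
    · intro hn
      exact absurd (Finset.mem_univ _) hn
  have hPV : ∀ i a g, (P' i a).coeff g ≠ 0 → g ∈ V := by
    intro i a g hg
    by_cases hi : a.1 = i
    · simp only [hP', if_pos hi] at hg
      exact hs0 _ _ _ hg
    · simp only [hP', if_neg hi] at hg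
      exact absurd (by simp) hg
  have hQW : ∀ i a g, (Q' i a).coeff g ≠ 0 → g ∈ W := by
    intro i a g hg
    by_cases hi : a.1 = i
    · simp only [hQ', if_pos hi] at hg
      exact ht0 _ _ _ hg
    · simp only [hQ', if_neg hi] at hg
      exact absurd (by simp) hg
  -- the bilinear sum
  have hbil : rho (∑ i, (∑ a, ev B hL (P' i a) * zx a.1 a.2) *
      (∑ b, ev B hL (Q' i b) * zy b.1 b.2)) ∈ SR L E := by
    have e1 : rho (∑ i, (∑ a, ev B hL (P' i a) * zx a.1 a.2) *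
        (∑ b, ev B hL (Q' i b) * zy b.1 b.2)) =
        ∑ i, (gr (fun n => (s i n : ℝ) - x i) * rho (gm (t i)) +
          algebraMap ℝ HR (x i) * gr (fun n => (t i n : ℝ) - y i)) := by
      have e2 : ∑ l, algebraMap ℝ HR (x l) * algebraMap ℝ HR (y l) = 0 := by
        simp only [← map_mul]
        rw [← map_sum, hxy, map_zero]
      rw [map_sum, ← add_zero (∑ i, (gr (fun n => (s i n : ℝ) - x i) * rho (gm (t i)) +
          algebraMap ℝ HR (x i) * gr (fun n => (t i n : ℝ) - y i))), ← e2,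
          ← Finset.sum_add_distrib]
      refine Finset.sum_congr rfl fun i _ => ?_
      rw [hPs, hQs, map_mul, hse i]
      nth_rewrite 1 [hte i]
      nth_rewrite 1 [hte i]
      ring
    rw [e1]
    refine SR_sum hL _ _ fun i _ => SR_add hL ?_ ?_
    · have := SR_mul hL (hsR i) (ht0R i)
      rwa [add_zero] at this
    · have := SR_mul hL (SR_cst hL (x i)) (htR i)
      rwa [zero_add] at this
  -- not small
  have hnot : rho (∑ b, ev B hL (Q' i₀ b) * zy b.1 b.2) ∉ SR L 1 := by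
    intro hcon
    rw [hQs] at hcon
    have h1 : algebraMap ℝ HR (y i₀) ∈ SR L 1 := by
      have e1 : algebraMap ℝ HR (y i₀) = rho (gm (t i₀)) +
          algebraMap ℝ HR (-1) * gr (fun n => (t i₀ n : ℝ) - y i₀) := by
        rw [hte i₀, map_neg, map_one]
        ring
      rw [e1]
      refine SR_add hL hcon ?_
      have := SR_mul hL (SR_cst hL (-1)) (htR i₀)
      rw [zero_add] at this
      exact SR_anti hL hE1 this
    rw [cst_eq, mem_SR] at h1
    have h2 := h1 (1 / 2) (by norm_num)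
    have h3 : Tendsto (fun n => Real.exp (-(1 - 1 / 2) * L n)) atTop (𝓝 0) := by
      refine Real.tendsto_exp_atBot.comp ?_
      exact hL.const_mul_atTop_of_neg (by norm_num)
    have h4 := ev_of_atTop (h3.eventually (gt_mem_nhds (abs_pos.2 hi₀)))
    obtain ⟨n, h5, h6⟩ := (h2.and h4).exists
    linarith
  obtain ⟨T, ⟨i₁, hT0⟩, hT1, hT2, hT3⟩ := hG C hC L hL (Σ l, Zx l) (Σ l, Zy l) inferInstance
    inferInstance (fun p => zx p.1 p.2) (fun p => zy p.1 p.2) (fun v p => hzx1 p.1 v p.2)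
    (fun p => hzx2 p.1 p.2) (fun v p => hzy1 p.1 v p.2) (fun p => hzy2 p.1 p.2) P' hPV Q' hQW E
    hbil i₀ hnot hEc
  choose q hq using fun i => gm_surj (T i)
  have hdb : ∀ i, ∀ᶠ n in (UU : Filter ℕ), ((q i n).den : ℝ) ≤ Real.exp (H * L n) := by
    intro i
    have h1 := hT2 i
    rw [← hq i] at h1
    exact db_of_RS hL h1
  have hsz : ∀ i, rho (T i) ∈ SR L (-c₁) := fun i => SR_rho (hT1 i none)
  have hsz' : ∀ i, ∀ᶠ n in (UU : Filter ℕ), |(q i n : ℝ)| ≤ Real.exp ((c₁ + 1) * L n) := by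
    intro i
    have h1 := hsz i
    rw [← hq i, rho_gm, mem_SR] at h1
    filter_upwards [h1 1 one_pos] with n h2
    refine h2.trans (le_of_eq ?_)
    congr 1
    ring
  have hlin : gr (fun n => ∑ i, x i * (q i n : ℝ)) ∈ SR L (E / 2 - c₁) := by
    have e1 : gr (fun n => ∑ i, x i * (q i n : ℝ)) =
        rho (∑ i, (∑ a, ev B hL (P' i a) * zx a.1 a.2) * T i) +
          ∑ i, algebraMap ℝ HR (-1) * (gr (fun n => (s i n : ℝ) - x i) * rho (T i)) := by
      rw [map_sum, ← Finset.sum_add_distrib, ← gr_sum]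
      refine Finset.sum_congr rfl fun i _ => ?_
      rw [hPs, map_mul, hse i, ← hq i, rho_gm, map_neg, map_one]
      have e2 : gr (fun n => x i * (q i n : ℝ)) = algebraMap ℝ HR (x i) * gr (fun n => (q i n : ℝ)) := by
        rw [cst_eq, gr_mul]
      rw [e2]
      ring
    rw [e1]
    refine SR_add hL hT3 (SR_sum hL _ _ fun i _ => ?_)
    have h1 := SR_mul hL (SR_cst hL (-1)) (SR_mul hL (hsR i) (hsz i))
    refine SR_anti hL ?_ h1
    linarith
  rw [mem_SR] at hlin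
  have hlin' := hlin 1 one_pos
  have hne : ∀ᶠ n in (UU : Filter ℕ), q i₁ n ≠ 0 := by
    rw [← gm_ne_zero, hq i₁]
    exact hT0
  refine ⟨fun n i => (∏ j ∈ Finset.univ.erase i, ((q j n).den : ℤ)) * (q i n).num, ?_⟩
  filter_upwards [hlin', hne, Filter.eventually_all.2 hdb, Filter.eventually_all.2 hsz', L_nonneg hL]
    with n g1 g2 g3 g4 g5
  have hD0 : (0 : ℝ) ≤ ∏ j, ((q j n).den : ℝ) := Finset.prod_nonneg fun j _ => Nat.cast_nonneg _
  have hD : ∏ j, ((q j n).den : ℝ) ≤ Real.exp (k * H * L n) := by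
    calc ∏ j, ((q j n).den : ℝ) ≤ ∏ _j : Fin k, Real.exp (H * L n) :=
          Finset.prod_le_prod (fun j _ => Nat.cast_nonneg _) fun j _ => g3 j
      _ = Real.exp (k * H * L n) := by
          rw [Finset.prod_const, Finset.card_univ, Fintype.card_fin, ← Real.exp_nat_mul]
          congr 1
          ring
  refine ⟨?_, ?_, ?_⟩
  · intro h0
    have h1 := congrFun h0 i₁
    simp only [Pi.zero_apply, mul_eq_zero] at h1
    rcases h1 with h1 | h1
    · rw [Finset.prod_eq_zero_iff] at h1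
      obtain ⟨j, -, hj⟩ := h1
      exact (q j n).den_pos.ne' (by exact_mod_cast hj)
    · exact g2 (Rat.zero_of_num_zero h1)
  · intro i
    rw [common_den (fun j => q j n) i, abs_mul, abs_of_nonneg hD0]
    calc (∏ j, ((q j n).den : ℝ)) * |(q i n : ℝ)|
        ≤ Real.exp (k * H * L n) * Real.exp ((c₁ + 1) * L n) :=
          mul_le_mul hD (g4 i) (abs_nonneg _) (Real.exp_pos _).le
      _ = Real.exp ((c₁ + 1 + k * H) * L n) := by rw [← Real.exp_add]; congr 1; ring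
      _ ≤ _ := Real.exp_le_exp.2 (mul_le_mul_of_nonneg_right hconst g5)
  · have e1 : ∑ i, (((∏ j ∈ Finset.univ.erase i, ((q j n).den : ℤ)) * (q i n).num : ℤ) : ℝ) * x i =
        (∏ j, ((q j n).den : ℝ)) * ∑ i, x i * (q i n : ℝ) := by
      rw [Finset.mul_sum]
      refine Finset.sum_congr rfl fun i _ => ?_
      rw [common_den (fun j => q j n) i]
      ring
    rw [e1, abs_mul, abs_of_nonneg hD0]
    calc (∏ j, ((q j n).den : ℝ)) * |∑ i, x i * (q i n : ℝ)|
        ≤ Real.exp (k * H * L n) * Real.exp (-(E / 2 - c₁ - 1) * L n) :=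
          mul_le_mul hD g1 (abs_nonneg _) (Real.exp_pos _).le
      _ = Real.exp (-((E / 2 - (c₁ + 1 + k * H)) * L n)) := by
          rw [← Real.exp_add]; congr 1; ring
      _ ≤ _ := by
          apply Real.exp_le_exp.2
          have := mul_le_mul_of_nonneg_right hconst g5
          linarith

end Pool.Agent.L0h44.AJ
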