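import Pool.Agent.L0h79.AJ.Stm

/-!
# Project AJ, module CRAM (helper44): Cramer's rule with bounds
-/

set_option autoImplicit false

namespace Pool.Agent.L0h44.AJ

open Matrix

section cram

variable {R : Type} [CommRing R] {Fil : ℕ → AddSubgroup R}

theorem prod_fil (h1 : (1 : R) ∈ Fil 0) (hm : ∀ i j, ∀ a ∈ Fil i, ∀ b ∈ Fil j, a * b ∈ Fil (i + j))
    {α : Type} [DecidableEq α] (s : Finset α) (u : α → R) (hu : ∀ i ∈ s, u i ∈ Fil 1) :
    ∏ i ∈ s, u i ∈ Fil s.card := by
  induction s using Finset.induction_on with
  | empty => simpa using h1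
  | insert a s ha ih =>
    rw [Finset.prod_insert ha, Finset.card_insert_of_notMem ha, Nat.add_comm]
    exact hm _ _ _ (hu a (Finset.mem_insert_self a s)) _
      (ih fun i hi => hu i (Finset.mem_insert_of_mem hi))

theorem det_fil (h1 : (1 : R) ∈ Fil 0) (hm : ∀ i j, ∀ a ∈ Fil i, ∀ b ∈ Fil j, a * b ∈ Fil (i + j))
    {r : ℕ} (A : Matrix (Fin r) (Fin r) R) (hA : ∀ i j, A i j ∈ Fil 1) : A.det ∈ Fil r := by
  rw [Matrix.det_apply]
  refine AddSubgroup.sum_mem _ fun σ _ => ?_
  have h2 := prod_fil h1 hm Finset.univ (fun i => A (σ i) i) fun i _ => hA _ _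
  rw [Finset.card_univ, Fintype.card_fin] at h2
  rcases Int.units_eq_one_or (Equiv.Perm.sign σ) with h | h
  · rw [h, one_smul]
    exact h2
  · rw [h, Units.neg_smul, one_smul]
    exact (Fil r).neg_mem h2

theorem adj_fil (hmono : Monotone Fil) (h1 : (1 : R) ∈ Fil 0)
    (hm : ∀ i j, ∀ a ∈ Fil i, ∀ b ∈ Fil j, a * b ∈ Fil (i + j))
    {r : ℕ} (A : Matrix (Fin r) (Fin r) R) (hA : ∀ i j, A i j ∈ Fil 1) (i j : Fin r) :
    A.adjugate i j ∈ Fil r := by
  rw [Matrix.adjugate_apply]
  refine det_fil h1 hm _ fun k l => ?_
  rw [Matrix.updateRow_apply]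
  split_ifs
  · rw [Pi.single_apply]
    split_ifs
    · exact hmono (Nat.zero_le 1) h1
    · exact (Fil 1).zero_mem
  · exact hA k l

/-- the bordered determinant -/
theorem border [IsDomain R] {r : ℕ} (A : Matrix (Fin r) (Fin r) R) (b : Fin r → R) (c : Fin r → R) (d : R)
    (hA : A.det ≠ 0)
    (h0 : (fromBlocks A (fun i (_ : Unit) => b i) (fun (_ : Unit) j => c j) (fun _ _ => d)).det = 0) :
    A.det * d - ∑ j, c j * ∑ i, A.adjugate j i * b i = 0 := by
  set B : Matrix (Fin r) Unit R := fun i _ => b i with hB
  set C : Matrix Unit (Fin r) R := fun _ j => c j with hC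
  set D : Matrix Unit Unit R := fun _ _ => d with hD
  have h1 : fromBlocks A B C D * fromBlocks 1 (-(A.adjugate * B)) 0 (A.det • (1 : Matrix Unit Unit R)) =
      fromBlocks A 0 C (A.det • D - C * (A.adjugate * B)) := by
    rw [fromBlocks_multiply]
    congr 1
    · simp
    · rw [Matrix.mul_neg, ← Matrix.mul_assoc, Matrix.mul_adjugate]
      simp
    · simp
    · rw [Matrix.mul_neg]
      simp
      abel
  have h2 := congrArg Matrix.det h1
  rw [Matrix.det_mul, h0, zero_mul, Matrix.det_fromBlocks_zero₁₂] at h2
  have h3 : (A.det • D - C * (A.adjugate * B)).det = 0 := by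
    rcases mul_eq_zero.1 h2.symm with h | h
    · exact absurd h hA
    · exact h
  rw [Matrix.det_unique, Matrix.sub_apply, Matrix.mul_apply] at h3
  have h4 : ∀ j, (A.adjugate * B) j default = ∑ i, A.adjugate j i * b i := fun j => by
    rw [Matrix.mul_apply]
  rw [Finset.sum_congr rfl fun j _ => congrArg (fun t => C default j * t) (h4 j)] at h3
  exact h3

end cram

theorem cram_aux (R : Type) [CommRing R] [IsDomain R] (ι κ : Type) [Fintype ι] [Fintype κ]
    (M : Matrix ι κ R) (Fil : ℕ → AddSubgroup R) (hmono : Monotone Fil) (h1 : (1 : R) ∈ Fil 0)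
    (hm : ∀ i j, ∀ a ∈ Fil i, ∀ b ∈ Fil j, a * b ∈ Fil (i + j)) (hM : ∀ i k, M i k ∈ Fil 1) :
    ∃ (Δ : R) (n : κ → κ → R) (a : ι → κ → R), Δ ≠ 0 ∧ Δ ∈ Fil (Fintype.card κ) ∧
      (∀ c k, n c k ∈ Fil (Fintype.card κ)) ∧ (∀ i k, a i k ∈ Fil (Fintype.card κ)) ∧
      (∀ c, M.mulVec (n c) = 0) ∧
      ∀ (q : κ → R) (k : κ), Δ * q k = ∑ c, q c * n c k + ∑ i, (M.mulVec q) i * a i k := by
  classical
  set P : ℕ → Prop := fun r => ∃ (f : Fin r → ι) (g : Fin r → κ), (M.submatrix f g).det ≠ 0 with hP
  have hinj : ∀ (r : ℕ) (f : Fin r → ι) (g : Fin r → κ), (M.submatrix f g).det ≠ 0 →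
      Function.Injective g := by
    intro r f g hd i j hij
    by_contra hne
    apply hd
    exact Matrix.det_zero_of_column_eq hne fun k => by simp [hij]
  have hle : ∀ r, P r → r ≤ Fintype.card κ := by
    rintro r ⟨f, g, hd⟩
    have := Fintype.card_le_of_injective g (hinj r f g hd)
    simpa using this
  have hP0 : P 0 := ⟨Fin.elim0, Fin.elim0, by rw [Matrix.det_fin_zero]; exact one_ne_zero⟩
  set r := Nat.findGreatest P (Fintype.card κ) with hr
  have hPr : P r := Nat.findGreatest_spec (Nat.zero_le _) hP0
  have hmax : ¬ P (r + 1) := by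
    intro h
    have h2 := Nat.le_findGreatest (hle _ h) h
    omega
  obtain ⟨f, g, hd⟩ := hPr
  have hg := hinj r f g hd
  have hrk : r ≤ Fintype.card κ := hle r ⟨f, g, hd⟩
  set A := M.submatrix f g with hA
  have hAF : ∀ i j, A i j ∈ Fil 1 := fun i j => hM _ _
  have hadj := adj_fil hmono h1 hm A hAF
  set n : κ → κ → R := fun c k => (if k = c then A.det else 0) -
    ∑ j, if g j = k then ∑ i, A.adjugate j i * M (f i) c else 0 with hn
  set a : ι → κ → R := fun i' k => ∑ i, ∑ j, if f i = i' ∧ g j = k then A.adjugate j i else 0 with ha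
  refine ⟨A.det, n, a, hd, hmono hrk (det_fil h1 hm A hAF), ?_, ?_, ?_, ?_⟩
  · intro c k
    by_cases hc : ∃ j, g j = c
    · obtain ⟨j₀, rfl⟩ := hc
      have h0 : n (g j₀) k = 0 := by
        have h2 : ∀ j, ∑ i, A.adjugate j i * M (f i) (g j₀) = if j = j₀ then A.det else 0 := by
          intro j
          have h3 : (A.adjugate * A) j j₀ = (A.det • (1 : Matrix (Fin r) (Fin r) R)) j j₀ := by
            rw [Matrix.adjugate_mul]
          rw [Matrix.mul_apply] at h3
          simp only [Matrix.smul_apply, Matrix.one_apply, smul_eq_mul, mul_ite, mul_one, mul_zero] at h3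
          exact h3
        rw [hn]
        simp only [h2]
        have h4 : ∀ j, (if g j = k then (if j = j₀ then A.det else 0) else 0) =
            if j = j₀ then (if g j₀ = k then A.det else 0) else 0 := by
          intro j
          by_cases hj : j = j₀
          · subst hj; simp
          · simp [hj]
        rw [Finset.sum_congr rfl fun j _ => h4 j, Finset.sum_ite_eq' Finset.univ j₀]
        simp only [Finset.mem_univ, if_true]
        by_cases h5 : k = g j₀
        · simp [h5]
        · simp [h5, Ne.symm h5]
      rw [h0]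
      exact AddSubgroup.zero_mem _
    · have hlt : r + 1 ≤ Fintype.card κ := by
        have h2 : Function.Injective (fun o : Option (Fin r) => o.elim c g) := by
          intro x y hxy
          cases x with
          | none =>
            cases y with
            | none => rfl
            | some y => exact absurd ⟨y, hxy.symm⟩ hc
          | some x =>
            cases y with
            | none => exact absurd ⟨x, hxy⟩ hc
            | some y => exact congrArg some (hg hxy)
        have := Fintype.card_le_of_injective _ h2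
        simpa using this
      refine AddSubgroup.sub_mem _ ?_ (AddSubgroup.sum_mem _ fun j _ => ?_)
      · split_ifs
        · exact hmono hrk (det_fil h1 hm A hAF)
        · exact AddSubgroup.zero_mem _
      · split_ifs
        · refine AddSubgroup.sum_mem _ fun i _ => hmono hlt ?_
          exact hm _ _ _ (hadj j i) _ (hM _ _)
        · exact AddSubgroup.zero_mem _
  · intro i' k
    refine AddSubgroup.sum_mem _ fun i _ => AddSubgroup.sum_mem _ fun j _ => ?_
    split_ifs
    · exact hmono hrk (hadj j i)
    · exact AddSubgroup.zero_mem _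
  · intro c
    funext i'
    have hb : (fromBlocks A (fun i (_ : Unit) => M (f i) c) (fun (_ : Unit) j => M i' (g j))
        (fun _ _ => M i' c)).det = 0 := by
      by_contra hne
      apply hmax
      set e : Fin (r + 1) ≃ Fin r ⊕ Unit := (finSumFinEquiv (m := r) (n := 1)).symm.trans
        (Equiv.sumCongr (Equiv.refl _) (Equiv.ofUnique (Fin 1) Unit)) with he
      refine ⟨fun x => Sum.elim f (fun _ => i') (e x), fun x => Sum.elim g (fun _ => c) (e x), ?_⟩
      have h2 : M.submatrix (fun x => Sum.elim f (fun _ => i') (e x))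
          (fun x => Sum.elim g (fun _ => c) (e x)) =
          (fromBlocks A (fun i (_ : Unit) => M (f i) c) (fun (_ : Unit) j => M i' (g j))
            (fun _ _ => M i' c)).submatrix e e := by
        ext x y
        simp only [Matrix.submatrix_apply]
        rcases e x with u | u <;> rcases e y with v | v <;> rfl
      rw [h2, Matrix.det_submatrix_equiv_self]
      exact hne
    have h3 := border A (fun i => M (f i) c) (fun j => M i' (g j)) (M i' c) hd hb
    show ∑ k, M i' k * n c k = 0
    rw [← h3]
    have h4 : ∀ k, M i' k * n c k = (if k = c then M i' k * A.det else 0) -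
        ∑ j, if g j = k then M i' k * ∑ i, A.adjugate j i * M (f i) c else 0 := by
      intro k
      rw [hn]
      simp only [mul_sub, Finset.mul_sum, mul_ite, mul_zero]
    rw [Finset.sum_congr rfl fun k _ => h4 k, Finset.sum_sub_distrib,
      Finset.sum_ite_eq' Finset.univ c, Finset.sum_comm]
    simp only [Finset.mem_univ, if_true]
    congr 1
    · ring
    · refine Finset.sum_congr rfl fun j _ => ?_
      rw [Finset.sum_ite_eq Finset.univ (g j)]
      simp
  · intro q k
    have h2 : ∑ c, q c * n c k = A.det * q k -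
        ∑ j, if g j = k then ∑ i, A.adjugate j i * (M.mulVec q) (f i) else 0 := by
      have h4 : ∀ c, q c * n c k = (if c = k then A.det * q c else 0) -
          ∑ j, if g j = k then ∑ i, A.adjugate j i * (M (f i) c * q c) else 0 := by
        intro c
        rw [hn]
        simp only [mul_sub, Finset.mul_sum, mul_ite, mul_zero]
        congr 1
        · by_cases h : k = c
          · simp [h, mul_comm]
          · simp [h, Ne.symm h]
        · refine Finset.sum_congr rfl fun j _ => ?_
          split_ifs
          · refine Finset.sum_congr rfl fun i _ => ?_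
            ring
          · rfl
      rw [Finset.sum_congr rfl fun c _ => h4 c, Finset.sum_sub_distrib,
        Finset.sum_ite_eq' Finset.univ k, Finset.sum_comm]
      simp only [Finset.mem_univ, if_true]
      congr 1
      refine Finset.sum_congr rfl fun j _ => ?_
      split_ifs
      · rw [Finset.sum_comm]
        refine Finset.sum_congr rfl fun i _ => ?_
        rw [← Finset.mul_sum]
        rfl
      · simp
    have h3 : ∑ i', (M.mulVec q) i' * a i' k =
        ∑ j, if g j = k then ∑ i, A.adjugate j i * (M.mulVec q) (f i) else 0 := by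
      have h5 : ∀ i', (M.mulVec q) i' * a i' k =
          ∑ i, ∑ j, if f i = i' then (if g j = k then A.adjugate j i * (M.mulVec q) i' else 0) else 0 := by
        intro i'
        rw [ha]
        simp only [Finset.mul_sum]
        refine Finset.sum_congr rfl fun i _ => Finset.sum_congr rfl fun j _ => ?_
        by_cases h6 : f i = i'
        · by_cases h7 : g j = k
          · simp [h6, h7, mul_comm]
          · simp [h6, h7]
        · simp [h6]
      rw [Finset.sum_congr rfl fun i' _ => h5 i', Finset.sum_comm]
      have h6 : ∀ i, ∑ i', ∑ j, (if f i = i' then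
          (if g j = k then A.adjugate j i * (M.mulVec q) i' else 0) else 0) =
          ∑ j, if g j = k then A.adjugate j i * (M.mulVec q) (f i) else 0 := by
        intro i
        rw [Finset.sum_comm]
        refine Finset.sum_congr rfl fun j _ => ?_
        rw [Finset.sum_ite_eq Finset.univ (f i)]
        simp
      rw [Finset.sum_congr rfl fun i _ => h6 i, Finset.sum_comm]
      refine Finset.sum_congr rfl fun j _ => ?_
      split_ifs
      · rfl
      · simp
    rw [h2, h3]
    ring

theorem cram : Pool.Agent.L0h79.AJ.S_CRAM := by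
  intro R _ _ ι κ _ _ M Fil hmono h1 hm hM
  exact cram_aux R ι κ M Fil hmono h1 hm hM

end Pool.Agent.L0h44.AJ
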